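import Pool.Agent.KS6_66.HpT.F

/-!
# The bounded compact approximation constant of Hardy spaces of finite and infinite dimensional tori

`T^ι = (ℝ/2πℤ)^ι` is the torus with a countable (finite or infinite) index set `ι`, with its normalised
Haar measure. For a set `Λ` of exponents `α = (α_i)`, `α_i ≥ 0`, finitely many different from `0`, the
Hardy space `H^p_Λ(T^ι)` consists of the `f ∈ L^p(T^ι)` all of whose Fourier coefficients `f̂(α)`, `α ∉ Λ`,
vanish. For one index and `Λ = {0, 1, 2, ...}` this is the classical space `H^p`. If `Λ` is the set of all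
exponents, it is the Hardy space of the polydisc (`ι` finite), or of the infinite dimensional torus
(`ι` infinite), which Bohr's correspondence identifies with the Hardy space of Dirichlet series.

Let `Λ` be any set of exponents which contains all multiples `0, α, 2 α, 3 α, ...` of at least one
`α ≠ 0`. The theorem says that `M(H^p_Λ(T^ι))` does not depend on `ι` and `Λ`: it is equal to the one
variable constant `M(H^p)`, namely to the norm `normIK0 p` of `f ↦ f - f̂(0)` on the classical Hardy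
space `H^p`. The infimum in the definition of `M` is attained, and `f ↦ f - f̂(0)` has the same norm on
`H^p_Λ(T^ι)`.

The classical space `Hardy p` and the number `normIK0 p`, the least `C ≥ 0` with `‖f - f̂(0)‖ ≤ C ‖f‖` for all
`f ∈ H^p`, are defined in `Pool.Graph.R_seed8.Results.MP_984ac2_an.HardyConstant`.

Proof. Upper bound: give the variable `x_i` a weight `w_i ≥ 1`, all weights being different. The Poisson
means `T_r f = Σ_α r^{Σ w_i α_i} f̂(α) χ_α` are compact contractions and converge strongly to the identity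
as `r → 1`. On the circles `t ↦ x + (w_i t)_i` they act as the dilations of the circle, so the one
variable inequality `‖f - T_{r²} f‖ ≤ ‖I - K₀‖ ‖f‖` of the earlier run (proved there by means of the disc
automorphisms) can be integrated over `x`. Lower bound: `g ↦ g(Σ α_i x_i)` is an isometry of the classical
`H^p` into `H^p_Λ(T^ι)`, and the compact operators `T_n` nearly annihilate the far dilates
`g(N Σ α_i x_i)` of the polynomials `g` of mean zero; no projection onto the copy of `H^p` is needed.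
-/

set_option autoImplicit false

open MeasureTheory AddCircle Filter Topology
open scoped ENNReal
open Pool.Agent.Results.MP_984ac2_an.HardyConstant (Hardy normIK0)

namespace Pool.Agent.Results.MP_984ac2_an.HardyTori

/-- Normalised Haar measure of the torus `T^ι = (ℝ/2πℤ)^ι`. -/
noncomputable def haar (ι : Type) [Countable ι] : Measure (ι → AddCircle (2 * Real.pi)) :=
  Measure.addHaarMeasure (⊤ : TopologicalSpace.PositiveCompacts (ι → AddCircle (2 * Real.pi)))

/-- The Lebesgue space `L^p(T^ι)`. -/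
def LT (ι : Type) [Countable ι] (p : ℝ≥0∞) : Type := Lp ℂ p (haar ι)

/-- `L^p(T^ι)` carries its usual norm. -/
noncomputable instance instNorm (ι : Type) [Countable ι] (p : ℝ≥0∞) [Fact (1 ≤ p)] :
    NormedAddCommGroup (LT ι p) :=
  Lp.instNormedAddCommGroup (α := ι → AddCircle (2 * Real.pi)) (E := ℂ) (μ := haar ι)

/-- `L^p(T^ι)` is a complex normed space. -/
noncomputable instance instSpace (ι : Type) [Countable ι] (p : ℝ≥0∞) [Fact (1 ≤ p)] :
    NormedSpace ℂ (LT ι p) :=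
  Lp.instNormedSpace (α := ι → AddCircle (2 * Real.pi)) (E := ℂ) (μ := haar ι)

/-- The character `χ_α(x) = exp(i Σ α_i x_i)` (`fourier 1 t = exp(i t)`). -/
noncomputable def character {ι : Type} (α : ι →₀ ℤ) (x : ι → AddCircle (2 * Real.pi)) : ℂ :=
  fourier 1 (α.sum fun i k => k • x i)

/-- The Fourier coefficient `f̂(α) = ∫ χ_{-α} f` (and `χ_{-α}` is the complex conjugate of `χ_α`). -/
noncomputable def coeff {ι : Type} [Countable ι] {p : ℝ≥0∞} : LT ι p → (ι →₀ ℤ) → ℂ :=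
  fun (f : Lp ℂ p (haar ι)) α => ∫ x, character (-α) x * f x ∂(haar ι)

theorem haar_univ_ne (ι : Type) [Countable ι] : haar ι Set.univ ≠ ∞ :=
  measure_ne_top (Pool.Agent.KS6_66.HpT.muG ι) Set.univ

/-- The constant function with value `c` as an element of `L^p(T^ι)`. -/
noncomputable def const (ι : Type) [Countable ι] (p : ℝ≥0∞) (c : ℂ) : LT ι p :=
  indicatorConstLp p (μ := haar ι) (s := Set.univ) MeasurableSet.univ (haar_univ_ne ι) c

theorem coeff_add {ι : Type} [Countable ι] {p : ℝ≥0∞} [Fact (1 ≤ p)] (f g : LT ι p) (α : ι →₀ ℤ)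
    (hf : coeff f α = 0) (hg : coeff g α = 0) : coeff (f + g) α = 0 := by
  have h := (Pool.Agent.KS6_66.HpT.coefG (ι := ι) p α).map_add f g
  refine Eq.trans h ?_
  refine Eq.trans (congrArg₂ (· + ·) hf hg) ?_
  exact add_zero 0

theorem coeff_zero {ι : Type} [Countable ι] {p : ℝ≥0∞} [Fact (1 ≤ p)] (α : ι →₀ ℤ) :
    coeff (0 : LT ι p) α = 0 :=
  (Pool.Agent.KS6_66.HpT.coefG (ι := ι) p α).map_zero

theorem coeff_smul {ι : Type} [Countable ι] {p : ℝ≥0∞} [Fact (1 ≤ p)] (c : ℂ) (f : LT ι p) (α : ι →₀ ℤ)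
    (hf : coeff f α = 0) : coeff (c • f) α = 0 := by
  have h := (Pool.Agent.KS6_66.HpT.coefG (ι := ι) p α).map_smul c f
  refine Eq.trans h ?_
  refine Eq.trans (congrArg (fun z => c • z) hf) ?_
  exact smul_zero c

/-- The Hardy space `H^p_Λ(T^ι)`: the `f ∈ L^p(T^ι)` with `f̂(α) = 0` for all `α ∉ Λ`. -/
noncomputable def HardyT {ι : Type} [Countable ι] (p : ℝ≥0∞) [Fact (1 ≤ p)] (Λ : Set (ι →₀ ℤ)) :
    Submodule ℂ (LT ι p) where
  carrier := {f | ∀ α, α ∉ Λ → coeff f α = 0}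
  add_mem' := fun {f g} hf hg α hα => coeff_add f g α (hf α hα) (hg α hα)
  zero_mem' := fun α _ => coeff_zero α
  smul_mem' := fun c f hf α hα => coeff_smul c f α (hf α hα)

/-- The set of all numbers `sup_n ‖I - T_n‖`, where `(T_n)` runs over the sequences of compact operators
on `X` that converge strongly to the identity (and for which the supremum is finite). The bounded compact
approximation constant `M(X)` is the infimum of this set. -/
def bcapValues (X : Type) [NormedAddCommGroup X] [NormedSpace ℂ X] : Set ℝ :=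
  {s | ∃ T : ℕ → X →L[ℂ] X, (∀ n, IsCompactOperator (T n)) ∧
    (∀ x, Tendsto (fun n => T n x) atTop (𝓝 x)) ∧
    IsLUB (Set.range fun n => ‖ContinuousLinearMap.id ℂ X - T n‖) s}

/-- The set of all `C ≥ 0` with `‖f - f̂(0)‖ ≤ C ‖f‖` for all `f ∈ H^p_Λ(T^ι)`; its least element is the
norm of `f ↦ f - f̂(0)`. -/
def meanConstants {ι : Type} [Countable ι] (p : ℝ≥0∞) [Fact (1 ≤ p)] (Λ : Set (ι →₀ ℤ)) : Set ℝ :=
  {C : ℝ | 0 ≤ C ∧ ∀ f ∈ HardyT p Λ, ‖f - const ι p (coeff f 0)‖ ≤ C * ‖f‖}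

theorem const_eq {ι : Type} [Countable ι] {p : ℝ≥0∞} [Fact (1 ≤ p)] (c : ℂ) :
    const ι p c = (show LT ι p from
      (c • Pool.Agent.KS6_66.HpT.clG p (Pool.Agent.KS6_66.HpT.chi (ι := ι) 0) :
        Pool.Agent.KS6_66.HpT.LG ι p)) := by
  rw [← Pool.Agent.KS6_66.HpT.clG_smul]
  have h : (indicatorConstLp p (μ := Pool.Agent.KS6_66.HpT.muG ι) (s := Set.univ) MeasurableSet.univ
      (haar_univ_ne ι) c : Pool.Agent.KS6_66.HpT.LG ι p) =
      Pool.Agent.KS6_66.HpT.clG p (c • Pool.Agent.KS6_66.HpT.chi (ι := ι) 0) := by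
    apply Lp.ext
    have h1 := indicatorConstLp_coeFn (p := p) (μ := Pool.Agent.KS6_66.HpT.muG ι) (s := Set.univ)
      (hs := MeasurableSet.univ) (hμs := haar_univ_ne ι) (c := c)
    filter_upwards [h1, Pool.Agent.KS6_66.HpT.clG_ae (p := p) (c • Pool.Agent.KS6_66.HpT.chi (ι := ι) 0)]
      with x hx1 hx2
    rw [hx1, hx2, ContinuousMap.smul_apply, Pool.Agent.KS6_66.HpT.chi_zero, smul_eq_mul, mul_one]
    simp
  exact h

theorem normIK0_eq (p : ℝ≥0∞) [Fact (1 ≤ p)] : normIK0 p = ‖1 - Pool.Agent.Helper192.Hp.K0 p‖ :=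
  Pool.Agent.Results.MP_984ac2_an.HardyConstant.normIK0_eq p

theorem bcap_isLeast (p : ℝ≥0∞) [Fact (1 ≤ p)] (hp : p ≠ ∞) (ι : Type) [Countable ι] (Λ : Set (ι →₀ ℤ))
    (hΛ0 : ∀ α ∈ Λ, ∀ i, 0 ≤ α i) (hΛ : ∃ α : ι →₀ ℤ, α ≠ 0 ∧ ∀ k : ℕ, k • α ∈ Λ) :
    IsLeast (bcapValues (HardyT p Λ)) ‖1 - Pool.Agent.Helper192.Hp.K0 p‖ :=
  Pool.Agent.KS6_66.HpT.bcap_isLeast hp hΛ0 hΛ

theorem mean_isLeast (p : ℝ≥0∞) [Fact (1 ≤ p)] (hp : p ≠ ∞) (ι : Type) [Countable ι] (Λ : Set (ι →₀ ℤ))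
    (hΛ0 : ∀ α ∈ Λ, ∀ i, 0 ≤ α i) (hΛ : ∃ α : ι →₀ ℤ, α ≠ 0 ∧ ∀ k : ℕ, k • α ∈ Λ) :
    IsLeast (meanConstants p Λ) ‖1 - Pool.Agent.Helper192.Hp.K0 p‖ := by
  unfold meanConstants
  simp only [const_eq]
  obtain ⟨α, hα, hΛ⟩ := hΛ
  exact Pool.Agent.KS6_66.HpT.meanConstG hp hΛ0 hα hΛ

/-- Let `1 ≤ p < ∞`.
(1) For every countable `ι` and every set `Λ` of nonnegative exponents which contains all multiples
`k α`, `k = 0, 1, 2, ...`, of some `α ≠ 0`: `M(H^p_Λ(T^ι))` is attained and equal to `normIK0 p`, the norm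
of `f ↦ f - f̂(0)` on the classical Hardy space, and `f ↦ f - f̂(0)` has the same norm on `H^p_Λ(T^ι)`.
(2) The same for the classical Hardy space `H^p` itself.
(3) The constant is `2/√3` for `p = 1`, `1` for `p = 2` and `((1+√5)/2)^{1/4}` for `p = 4`. -/
theorem result :
    (∀ (p : ℝ≥0∞) [Fact (1 ≤ p)], p ≠ ∞ →
      (∀ (ι : Type) [Countable ι] (Λ : Set (ι →₀ ℤ)), (∀ α ∈ Λ, ∀ i, 0 ≤ α i) →
        (∃ α : ι →₀ ℤ, α ≠ 0 ∧ ∀ k : ℕ, k • α ∈ Λ) →
          IsLeast (bcapValues (HardyT p Λ)) (normIK0 p) ∧ IsLeast (meanConstants p Λ) (normIK0 p)) ∧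
      IsLeast (bcapValues (Hardy p)) (normIK0 p)) ∧
    normIK0 1 = 2 / Real.sqrt 3 ∧
    normIK0 2 = 1 ∧
    (∀ [Fact ((1 : ℝ≥0∞) ≤ 4)], normIK0 4 = ((1 + Real.sqrt 5) / 2) ^ ((1 : ℝ) / 4)) := by
  refine ⟨?_, ?_, ?_, ?_⟩
  · intro p _ hp
    rw [normIK0_eq]
    refine ⟨fun ι _ Λ h1 h2 => ⟨bcap_isLeast p hp ι Λ h1 h2, mean_isLeast p hp ι Λ h1 h2⟩, ?_⟩
    exact Pool.Agent.KS6_66.HpT.bcap_isLeast_one (p := p) hp
  · rw [normIK0_eq]
    exact Pool.Agent.Helper192.Hp.norm_K0_one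
  · rw [normIK0_eq]
    exact Pool.Agent.Helper192.Hp.norm_K0_two
  · intro _
    rw [normIK0_eq]
    exact Pool.Agent.Helper192.Hp.norm_K0_four

end Pool.Agent.Results.MP_984ac2_an.HardyTori
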